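import Pool.Agent.H14.SspG31
import Pool.Agent.H14.SspDefs2

set_option autoImplicit false
set_option maxRecDepth 100000
set_option synthInstance.maxSize 4096

namespace Pool.Agent.Results.MP_2eee52_co.Counter

open Pool.Agent.H14 Pool.Agent.H14.Q Pool.Agent.H14.SspG31 SimpleGraph Matrix

def A0 : Matrix (Fin 9) (Fin 9) ℤ := !![0, 2, 0, 1, 3, 0, 0, 0, 0;
  2, 1, 1, 0, 0, 0, 0, 3, 0;
  0, 1, 0, -4, 0, 0, 0, 0, 0;
  1, 0, -4, 1, 0, 0, 0, 0, 0;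
  3, 0, 0, 0, -1, 0, 0, 0, 0;
  0, 0, 0, 0, 0, 2, 2, 0, 0;
  0, 0, 0, 0, 0, 2, 2, 0, 0;
  0, 3, 0, 0, 0, 0, 0, -2, 2;
  0, 0, 0, 0, 0, 0, 0, 2, 4]
def A1 : Matrix (Fin 9) (Fin 9) ℤ := !![0, 0, 0, 0, 0, 0, 0, 0, 0;
  0, 0, 0, 0, 0, 0, 0, 0, 0;
  0, 0, 0, 0, 0, 0, 0, 0, 0;
  0, 0, 0, 0, 0, 0, 0, 0, 0;
  0, 0, 0, 0, 0, 1, 0, 0, 0;
  0, 0, 0, 0, 1, 0, 0, 0, 0;
  0, 0, 0, 0, 0, 0, 0, 0, 0;
  0, 0, 0, 0, 0, 0, 0, 0, 0;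
  0, 0, 0, 0, 0, 0, 0, 0, 0]
def X0 : Matrix (Fin 9) (Fin 9) ℤ := !![0, 0, 6, 0, 0, 0, 0, 6, 6;
  0, 0, 0, 6, 6, 0, 0, 0, 0;
  6, 0, 0, 0, 0, 0, 0, -12, -12;
  0, 6, 0, 0, -12, 0, 0, 0, 18;
  0, 6, 0, -12, 0, 0, 0, 0, 6;
  0, 0, 0, 0, 0, 0, 0, 0, 0;
  0, 0, 0, 0, 0, 0, 0, 0, 0;
  6, 0, -12, 0, 0, 0, 0, 0, 0;
  6, 0, -12, 18, 6, 0, 0, 0, 0]
def X1 : Matrix (Fin 9) (Fin 9) ℤ := !![0, 0, 0, 0, 0, 0, 0, 0, 0;
  0, 0, 0, 0, 0, 2, 2, 0, 0;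
  0, 0, 0, 0, 0, 6, 3, 0, 0;
  0, 0, 0, 0, 0, -4, -4, 0, 0;
  0, 0, 0, 0, 0, 0, 0, 0, 0;
  0, 2, 6, -4, 0, 0, 0, 2, 2;
  0, 2, 3, -4, 0, 0, 0, 1, 1;
  0, 0, 0, 0, 0, 2, 1, 0, 0;
  0, 0, 0, 0, 0, 2, 1, 0, 0]

instance : DecidableRel (pend G 7).Adj := fun a b => decidable_of_iff _ (fromRel_adj _ a b).symm

noncomputable abbrev c : Matrix (Fin 9) (Fin 9) ℤ →+* Matrix (Fin 9) (Fin 9) ℝ :=
  (Int.castRingHom ℝ).mapMatrix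

theorem result : ¬ ∀ (n : ℕ) (G : SimpleGraph (Fin n)) (v : Fin n), SSPGraph G →
    (G.neighborSet v).ncard = 1 → SSPGraph (pend G v) := by
  intro h
  have hr : Real.sqrt 6 * Real.sqrt 6 = 6 := Real.mul_self_sqrt (by norm_num)
  have hp : Real.sqrt 6 ≠ 0 := by positivity
  generalize Real.sqrt 6 = r at hr hp
  have sy : ∀ i j, A0 i j = A0 j i ∧ A1 i j = A1 j i ∧ X0 i j = X0 j i ∧ X1 i j = X1 j i := by
    decide +kernel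
  have pat : ∀ i j, (i ≠ j → ¬ (pend G 7).Adj i j → A0 i j = 0 ∧ A1 i j = 0) ∧
      ((pend G 7).Adj i j → A0 i j ≠ 0 ∧ A1 i j = 0 ∨ A0 i j = 0 ∧ A1 i j ≠ 0) ∧
      (A0 i j = 0 ∧ A1 i j = 0 ∨ X0 i j = 0 ∧ X1 i j = 0) ∧ (i = j → X0 i j = 0 ∧ X1 i j = 0) := by
    decide +kernel
  have h1 := h 8 G 7 ssp (by
    have : G.neighborSet 7 = {1} := by ext x; revert x; simp only [mem_neighborSet, Set.mem_singleton_iff]; decide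
    rw [this, Set.ncard_singleton]) (c A0 + r • c A1) ⟨?_, fun i j hij => ?_⟩ (c X0 + r • c X1) ?_ ?_ ?_ ?_
  · have := congrFun (congrFun h1 0) 2
    simp [X0, X1] at this
  · ext i j; simp [sy i j]
  · by_cases ha : (pend G 7).Adj i j
    · rcases (pat i j).2.1 ha with h | h <;> simp [ha, h, hp]
    · simp [ha, (pat i j).1 hij ha]
  · ext i j; simp [sy i j]
  · ext i j; rcases (pat i j).2.2.1 with h | h <;> simp [h]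
  · ext i j
    by_cases hij : i = j
    · simp [(pat i j).2.2.2 hij]
    · simp [hij]
  · have e1 : A0 * X0 - X0 * A0 + (6 : ℤ) • (A1 * X1 - X1 * A1) = 0 := by decide +kernel
    have e2 : A0 * X1 + A1 * X0 - X0 * A1 - X1 * A0 = 0 := by decide +kernel
    have f1 := congrArg c e1
    have f2 := congrArg c e2
    simp only [map_add, map_sub, map_mul, map_zsmul, map_zero] at f1 f2
    have e : (c A0 + r • c A1) * (c X0 + r • c X1) - (c X0 + r • c X1) * (c A0 + r • c A1) =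
        (c A0 * c X0 - c X0 * c A0 + (r * r) • (c A1 * c X1 - c X1 * c A1)) +
        r • (c A0 * c X1 + c A1 * c X0 - c X0 * c A1 - c X1 * c A0) := by
      simp only [mul_add, add_mul, smul_mul_assoc, mul_smul_comm]; module
    rw [e, f2, hr, smul_zero, add_zero, ← f1]
    congr 1
    rw [← Int.cast_smul_eq_zsmul ℝ]; norm_num

end Pool.Agent.Results.MP_2eee52_co.Counter
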